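import Pool.Agent.Y645.UG.Stm2
import Pool.Agent.Y645.UL.Fin

/-!
# Articulated form gives Zilber's form
-/

set_option autoImplicit false

namespace Pool.Agent.Y765.UG

open MvPolynomial Module Pool.Agent.Y645.UL Pool.Agent.Y645.UG

theorem closed_mem {k ι : Type} [Field k] {A : Set (ι → kˣ)} (hA : IsClosedT A) {x : ι → kˣ}
    (hx : ∀ f ∈ van A, eval (fun j => (x j : k)) f = 0) : x ∈ A := by
  obtain ⟨S, hS⟩ := hA
  rw [hS]
  intro f hf
  refine hx f ?_
  intro p hp
  rw [hS] at hp
  exact hp f hf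

theorem t_ZIL2 : S_ZIL2 := by
  classical
  intro k _ _ _ c h ι _ Y hY hc hdense hrel
  have hdef : defect Y = (Fintype.card ι : ℤ) - (dimT Y : ℤ) := by
    rw [defect, hrel, finrank_bot]
    simp
  rcases Nat.lt_or_ge (dimT Y) (Fintype.card ι) with hlt | hge
  · obtain ⟨δ, hδ⟩ : ∃ δ : ℕ, Fintype.card ι = dimT Y + δ + 1 :=
      ⟨Fintype.card ι - dimT Y - 1, by omega⟩
    have hδc : δ < c := by omega
    obtain ⟨𝒜, hfin, h1, h2⟩ := h ι Y δ hδc hY.1
    by_cases hcase : ∃ A ∈ 𝒜, Y ⊆ A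
    · obtain ⟨A, hA, hYA⟩ := hcase
      obtain ⟨-, h3, h4⟩ := h1 A hA
      have h5 : Y = A := Set.Subset.antisymm hYA h3
      rw [← h5, hdef] at h4
      omega
    · have h3 : ∀ A ∈ 𝒜, ∃ f ∈ van A, f ∉ van Y := by
        intro A hA
        by_contra hcon
        push Not at hcon
        refine hcase ⟨A, hA, fun x hx => ?_⟩
        exact closed_mem (h1 A hA).1.1 fun f hf => hcon f hf x hx
      choose! g hg1 hg2 using h3
      have h4 : (∏ A ∈ hfin.toFinset, g A) ∈ van Y := by
        intro x hx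
        refine hdense _ (fun y hy hyd => ?_) x hx
        obtain ⟨A, hA, hyA⟩ := h2 {y} (isSubvar_singleton y) (Set.singleton_subset_iff.2 hy) (by
          rw [defect]
          omega)
        rw [map_prod]
        exact Finset.prod_eq_zero (hfin.mem_toFinset.2 hA) (hg1 A hA y (hyA rfl))
      obtain ⟨A, hA, hgA⟩ := (Ideal.IsPrime.prod_mem_iff (hp := hY.2)).1 h4
      exact hg2 A (hfin.mem_toFinset.1 hA) hgA
  · obtain ⟨x, hx⟩ := van_prime_nonempty hY.2
    have h5 := hdense 1 (fun y hy hyd => by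
      exfalso
      rw [rel_singleton] at hyd
      have := mrk_add y
      omega) x hx
    rw [map_one] at h5
    exact one_ne_zero h5

end Pool.Agent.Y765.UG
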